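import Mathlib

/-!
# Mappings of finite distortion: the definitions used in the statement
-/

open MeasureTheory Set Topology
open scoped ContDiff

namespace Pool.Agent.MPd8ee74

/-- The Euclidean space `ℝⁿ`. -/
abbrev Eu (n : ℕ) : Type := EuclideanSpace ℝ (Fin n)

/-- `f ∈ W^{1,1}_loc(Ω, ℝⁿ)` with weak derivative `D`: both `f` and `D` are locally integrable in
the open set `Ω` and `∫ (∂_v φ) f = - ∫ φ (D v)` for all test functions `φ ∈ C_c^∞(Ω)` and all
vectors `v`. -/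
structure HasWeakDeriv {n : ℕ} (Ω : Set (Eu n)) (f : Eu n → Eu n) (D : Eu n → Eu n →L[ℝ] Eu n) :
    Prop where
  locInt : LocallyIntegrableOn f Ω
  locIntDeriv : LocallyIntegrableOn D Ω
  integral_eq : ∀ φ : Eu n → ℝ, ContDiff ℝ ∞ φ → HasCompactSupport φ → tsupport φ ⊆ Ω →
    ∀ v : Eu n, ∫ x, (fderiv ℝ φ x v) • f x = - ∫ x, φ x • D x v

/-- The distortion of a linear map: `|D|^n / det D` if `det D > 0`, and `1` otherwise; here `|D|`
is the operator norm. -/
noncomputable def distortion {n : ℕ} (D : Eu n →L[ℝ] Eu n) : ℝ :=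
  open Classical in if 0 < D.det then ‖D‖ ^ n / D.det else 1

/-- `f` is a mapping of finite distortion in the open set `Ω`, with weak derivative `D`. -/
structure FiniteDistortion {n : ℕ} (Ω : Set (Eu n)) (f : Eu n → Eu n)
    (D : Eu n → Eu n →L[ℝ] Eu n) : Prop where
  weakDeriv : HasWeakDeriv Ω f D
  locIntDet : LocallyIntegrableOn (fun x => (D x).det) Ω
  exists_bound : ∃ K : Eu n → ℝ, Measurable K ∧ (∀ x, 1 ≤ K x) ∧
    ∀ᵐ x ∂(volume.restrict Ω), ‖D x‖ ^ n ≤ K x * (D x).det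

/-- The class `F_n`: homeomorphisms `f : Ω → f(Ω)` of finite distortion, `Ω ⊆ ℝⁿ` open, whose
distortion function belongs to `L^{n-1}_loc(Ω)`. -/
def InClass {n : ℕ} (Ω : Set (Eu n)) (f : Eu n → Eu n) : Prop :=
  IsOpen Ω ∧ IsEmbedding (fun x : Ω => f x) ∧
    ∃ D : Eu n → Eu n →L[ℝ] Eu n, FiniteDistortion Ω f D ∧
      LocallyIntegrableOn (fun x => distortion (D x) ^ (n - 1)) Ω

/-- `α` is admissible: for every `f ∈ F_n` and every ball `B(z,R)` compactly contained in `f(Ω)`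
there is `C` with `|f⁻¹(x) - f⁻¹(z)| ≤ C log^{-α}(R / |x - z|)` for all `x ∈ B(z,R) \ {z}`. -/
def Admissible (n : ℕ) (α : ℝ) : Prop :=
  ∀ (Ω : Set (Eu n)) (f : Eu n → Eu n), InClass Ω f →
    ∀ (z : Eu n) (R : ℝ), 0 < R → Metric.closedBall z R ⊆ f '' Ω →
      ∃ C : ℝ, ∀ x ∈ Metric.ball z R, x ≠ z →
        ‖Function.invFunOn f Ω x - Function.invFunOn f Ω z‖ ≤
          C * (Real.log (R / ‖x - z‖)) ^ (-α)

end Pool.Agent.MPd8ee74
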