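import Mathlib

/-!
# The one-dimensional profile

`prof β γ s t = min 1 (max (t |s|^(-γ)) (exp (1 - |s|^(-β))))` and its primitive in `s`.
-/

open MeasureTheory Set Filter Topology

namespace Pool.Agent.MPd8ee74

/-- The profile. -/
noncomputable def prof (β γ s t : ℝ) : ℝ :=
  min 1 (max (t * |s| ^ (-γ)) (Real.exp (1 - |s| ^ (-β))))

variable {β γ : ℝ}

lemma prof_pos (β γ s t : ℝ) : 0 < prof β γ s t :=
  lt_min one_pos (lt_max_of_lt_right (Real.exp_pos _))

lemma prof_le_one (β γ s t : ℝ) : prof β γ s t ≤ 1 := min_le_left _ _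

lemma prof_eq_one (hβ : 0 < β) {s : ℝ} (hs : 1 ≤ |s|) (t : ℝ) : prof β γ s t = 1 := by
  unfold prof
  apply min_eq_left
  apply le_max_of_le_right
  rw [Real.one_le_exp_iff, sub_nonneg]
  exact Real.rpow_le_one_of_one_le_of_nonpos hs (by linarith)

lemma measurable_prof (β γ t : ℝ) : Measurable fun s => prof β γ s t := by
  unfold prof
  fun_prop

lemma measurable_prof_uncurry (β γ : ℝ) : Measurable fun p : ℝ × ℝ => prof β γ p.1 p.2 := by
  unfold prof
  fun_prop

lemma norm_prof_le (β γ s t : ℝ) : ‖prof β γ s t‖ ≤ 1 := by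
  rw [Real.norm_of_nonneg (prof_pos _ _ _ _).le]
  exact prof_le_one _ _ _ _

lemma intervalIntegrable_prof (β γ t a b : ℝ) :
    IntervalIntegrable (fun s => prof β γ s t) volume a b := by
  apply (intervalIntegrable_const (c := (1 : ℝ))).mono_fun
  · exact (measurable_prof β γ t).aestronglyMeasurable
  · filter_upwards with s
    rw [norm_one]
    exact norm_prof_le _ _ _ _

lemma continuousAt_prof {s : ℝ} (hs : s ≠ 0) (t : ℝ) : ContinuousAt (fun s => prof β γ s t) s := by
  unfold prof
  have h1 : ContinuousAt (fun s : ℝ => |s|) s := continuous_abs.continuousAt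
  have hs' : |s| ≠ 0 := abs_ne_zero.2 hs
  have h2 : ContinuousAt (fun s : ℝ => |s| ^ (-γ)) s := h1.rpow_const (Or.inl hs')
  have h3 : ContinuousAt (fun s : ℝ => |s| ^ (-β)) s := h1.rpow_const (Or.inl hs')
  have h4 : ContinuousAt (fun s : ℝ => t * |s| ^ (-γ)) s := continuousAt_const.mul h2
  have h5 : ContinuousAt (fun s : ℝ => Real.exp (1 - |s| ^ (-β))) s :=
    (continuousAt_const.sub h3).rexp
  exact Filter.Tendsto.min tendsto_const_nhds (Filter.Tendsto.max h4 h5)

/-- The kernel controlling the dependence on `t`. -/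
noncomputable def kern (γ s : ℝ) : ℝ := (Metric.ball (0 : ℝ) 1).indicator (fun s => ‖s‖ ^ (-γ)) s

lemma kern_nonneg (γ s : ℝ) : 0 ≤ kern γ s := by
  unfold kern
  apply indicator_nonneg
  intro s _
  positivity

lemma integrable_kern (hγ : γ < 1) : Integrable (kern γ) := by
  unfold kern
  rw [integrable_indicator_iff measurableSet_ball]
  have := integrableOn_fun_norm_addHaar (E := ℝ) (F := ℝ) (volume : Measure ℝ)
    (f := fun y => y ^ (-γ)) (r := 1)
  rw [this]
  simp only [Module.finrank_self, tsub_self, pow_zero, one_smul]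
  exact (intervalIntegral.integrableOn_Ioo_rpow_iff one_pos).2 (by linarith)

lemma abs_min_max_sub_le (a b c d : ℝ) : |min d (max a c) - min d (max b c)| ≤ |a - b| := by
  calc |min d (max a c) - min d (max b c)| ≤ |max a c - max b c| := abs_min_sub_min_le_max _ _ _ _ |>.trans (by simp)
    _ ≤ |a - b| := abs_max_sub_max_le_abs _ _ _

lemma abs_prof_sub_le (hβ : 0 < β) (s t t' : ℝ) :
    |prof β γ s t - prof β γ s t'| ≤ |t - t'| * kern γ s := by
  by_cases hs : |s| < 1
  · have h1 : kern γ s = |s| ^ (-γ) := by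
      unfold kern
      rw [indicator_of_mem]
      · rfl
      · simpa using hs
    rw [h1]
    unfold prof
    refine (abs_min_max_sub_le _ _ _ _).trans ?_
    rw [← sub_mul, abs_mul, abs_of_nonneg (show 0 ≤ |s| ^ (-γ) by positivity)]
  · rw [prof_eq_one hβ (not_lt.1 hs), prof_eq_one hβ (not_lt.1 hs), sub_self, abs_zero]
    exact mul_nonneg (abs_nonneg _) (kern_nonneg _ _)

/-- The primitive of the profile. -/
noncomputable def prim (β γ y t : ℝ) : ℝ := ∫ s in (0 : ℝ)..y, prof β γ s t

lemma abs_prim_sub_le_right (hβ : 0 < β) (hγ : γ < 1) (y t t' : ℝ) :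
    |prim β γ y t - prim β γ y t'| ≤ |t - t'| * ∫ s, kern γ s := by
  unfold prim
  rw [← intervalIntegral.integral_sub (intervalIntegrable_prof _ _ _ _ _)
    (intervalIntegrable_prof _ _ _ _ _)]
  have hint : Integrable fun s => |t - t'| * kern γ s := (integrable_kern hγ).const_mul _
  calc |∫ s in (0 : ℝ)..y, (prof β γ s t - prof β γ s t')|
      ≤ ∫ s in Set.uIoc 0 y, ‖prof β γ s t - prof β γ s t'‖ := by
        rw [← Real.norm_eq_abs]
        exact intervalIntegral.norm_integral_le_integral_norm_uIoc
    _ ≤ ∫ s in Set.uIoc 0 y, |t - t'| * kern γ s := by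
        apply setIntegral_mono_on _ hint.integrableOn measurableSet_uIoc
        · intro s _
          exact abs_prof_sub_le hβ s t t'
        · have := (intervalIntegrable_prof β γ t 0 y).sub (intervalIntegrable_prof β γ t' 0 y)
          exact (intervalIntegrable_iff.1 this).norm
    _ ≤ ∫ s, |t - t'| * kern γ s := by
        apply setIntegral_le_integral hint
        filter_upwards with s
        exact mul_nonneg (abs_nonneg _) (kern_nonneg _ _)
    _ = |t - t'| * ∫ s, kern γ s := integral_const_mul _ _

lemma prim_sub (y y' t : ℝ) : prim β γ y' t - prim β γ y t = ∫ s in y..y', prof β γ s t := by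
  unfold prim
  rw [intervalIntegral.integral_interval_sub_left (intervalIntegrable_prof _ _ _ _ _)
    (intervalIntegrable_prof _ _ _ _ _)]

lemma abs_prim_sub_le_left (y y' t : ℝ) : |prim β γ y' t - prim β γ y t| ≤ |y' - y| := by
  rw [prim_sub]
  have := intervalIntegral.norm_integral_le_of_norm_le_const (a := y) (b := y') (C := 1)
    (f := fun s => prof β γ s t) (fun s _ => norm_prof_le _ _ _ _)
  simpa using this

lemma prim_strictMono (t : ℝ) : StrictMono fun y => prim β γ y t := by
  intro y y' hy
  rw [← sub_pos]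
  simp only
  rw [prim_sub]
  exact intervalIntegral.intervalIntegral_pos_of_pos (intervalIntegrable_prof _ _ _ _ _)
    (fun s => prof_pos _ _ _ _) hy

lemma abs_prim_sub_id_le (hβ : 0 < β) (y t : ℝ) : |prim β γ y t - y| ≤ 2 := by
  have h1 : prim β γ y t - y = ∫ s in (0 : ℝ)..y, (prof β γ s t - 1) := by
    rw [intervalIntegral.integral_sub (intervalIntegrable_prof _ _ _ _ _)
      intervalIntegrable_const]
    simp [prim]
  rw [h1]
  have hint : Integrable ((Metric.ball (0 : ℝ) 1).indicator fun _ => (1 : ℝ)) := by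
    rw [integrable_indicator_iff measurableSet_ball]
    exact integrableOn_const (by simp)
  have hb : ∀ s, ‖prof β γ s t - 1‖ ≤ (Metric.ball (0 : ℝ) 1).indicator (fun _ => (1 : ℝ)) s := by
    intro s
    by_cases hs : |s| < 1
    · rw [indicator_of_mem (by simpa using hs), Real.norm_eq_abs, abs_le]
      constructor <;> linarith [prof_pos β γ s t, prof_le_one β γ s t]
    · rw [prof_eq_one hβ (not_lt.1 hs), sub_self, norm_zero]
      apply indicator_nonneg
      intro _ _
      exact zero_le_one
  calc |∫ s in (0 : ℝ)..y, (prof β γ s t - 1)|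
      ≤ ∫ s in Set.uIoc 0 y, ‖prof β γ s t - 1‖ := by
        rw [← Real.norm_eq_abs]
        exact intervalIntegral.norm_integral_le_integral_norm_uIoc
    _ ≤ ∫ s in Set.uIoc 0 y, (Metric.ball (0 : ℝ) 1).indicator (fun _ => (1 : ℝ)) s := by
        apply setIntegral_mono_on _ hint.integrableOn measurableSet_uIoc
        · intro s _
          exact hb s
        · have := ((intervalIntegrable_prof β γ t 0 y).sub
            (intervalIntegrable_const (c := (1 : ℝ))))
          exact (intervalIntegrable_iff.1 this).norm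
    _ ≤ ∫ s, (Metric.ball (0 : ℝ) 1).indicator (fun _ => (1 : ℝ)) s := by
        apply setIntegral_le_integral hint
        filter_upwards with s
        apply indicator_nonneg
        intro _ _
        exact zero_le_one
    _ = 2 := by
        rw [integral_indicator measurableSet_ball]
        simp

lemma hasDerivAt_prim {y : ℝ} (hy : y ≠ 0) (t : ℝ) :
    HasDerivAt (fun y => prim β γ y t) (prof β γ y t) y := by
  apply intervalIntegral.integral_hasDerivAt_right (intervalIntegrable_prof _ _ _ _ _)
  · exact (measurable_prof β γ t).stronglyMeasurable.stronglyMeasurableAtFilter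
  · exact continuousAt_prof hy t

lemma prim_zero (t : ℝ) : prim β γ 0 t = 0 := by simp [prim]

/-- Bound on the centre line. -/
lemma prim_le {y : ℝ} (hy : 0 < y) (hβ : 0 < β) :
    prim β γ y 0 ≤ y * Real.exp (1 - y ^ (-β)) := by
  have h1 : ∀ s ∈ Ioc 0 y, prof β γ s 0 ≤ Real.exp (1 - y ^ (-β)) := by
    intro s hs
    unfold prof
    refine (min_le_right _ _).trans ?_
    rw [zero_mul, abs_of_pos hs.1]
    apply max_le (Real.exp_pos _).le
    rw [Real.exp_le_exp]
    have : y ^ (-β) ≤ s ^ (-β) := Real.rpow_le_rpow_of_nonpos hs.1 hs.2 (by linarith)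
    linarith
  unfold prim
  have h2 := intervalIntegral.integral_mono_on_of_le_Ioo hy.le
    (intervalIntegrable_prof β γ 0 0 y)
    (intervalIntegrable_const (c := Real.exp (1 - y ^ (-β))))
    (fun s hs => h1 s ⟨hs.1, hs.2.le⟩)
  simpa using h2

end Pool.Agent.MPd8ee74
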