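import Mathlib
import Pool.Agent.MP_d8ee74_an.Defs
import Pool.Agent.MP_d8ee74_an.Profile

/-!
# The map
-/

open MeasureTheory Set Filter Topology
open scoped ContDiff NNReal

namespace Pool.Agent.MPd8ee74

variable {m : ℕ} {β γ : ℝ}

/-- The tail of a vector (with the maximum norm). -/
def tail (x : Eu (m + 1)) : Fin m → ℝ := fun i => x i.succ

/-- The head vector. -/
noncomputable def e0 : Eu (m + 1) := EuclideanSpace.single 0 1

lemma norm_tail_sub_le (x y : Eu (m + 1)) : ‖tail x - tail y‖ ≤ ‖x - y‖ := by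
  rw [pi_norm_le_iff_of_nonneg (norm_nonneg _)]
  intro i
  exact PiLp.norm_apply_le (x - y) i.succ

/-- The map `f(x) = (prim (x₀, |x'|), x')`. -/
noncomputable def mp (β γ : ℝ) (x : Eu (m + 1)) : Eu (m + 1) :=
  x + (prim β γ (x 0) ‖tail x‖ - x 0) • e0

lemma mp_zero_coord (x : Eu (m + 1)) : mp β γ x 0 = prim β γ (x 0) ‖tail x‖ := by
  simp [mp, e0]

lemma mp_succ_coord (x : Eu (m + 1)) (i : Fin m) : mp β γ x i.succ = x i.succ := by
  simp [mp, e0]

lemma tail_mp (x : Eu (m + 1)) : tail (mp β γ x) = tail x := by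
  funext i
  exact mp_succ_coord x i

lemma mp_injective : Function.Injective (mp (m := m) β γ) := by
  intro x y hxy
  have h1 : tail x = tail y := by rw [← tail_mp (β := β) (γ := γ) x, hxy, tail_mp]
  have h2 : prim β γ (x 0) ‖tail x‖ = prim β γ (y 0) ‖tail y‖ := by
    rw [← mp_zero_coord, hxy, mp_zero_coord]
  rw [h1] at h2
  have h3 : x 0 = y 0 := (prim_strictMono ‖tail y‖).injective h2
  ext i
  refine Fin.cases h3 (fun i => ?_) i
  exact congrFun h1 i

lemma prim_surjective (hβ : 0 < β) (t : ℝ) : Function.Surjective fun y => prim β γ y t := by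
  have hc : Continuous fun y => prim β γ y t := by
    have : LipschitzWith 1 fun y => prim β γ y t :=
      LipschitzWith.of_dist_le_mul fun y y' => by
        rw [Real.dist_eq, Real.dist_eq]
        simpa using abs_prim_sub_le_left (β := β) (γ := γ) y' y t
    exact this.continuous
  apply hc.surjective
  · apply tendsto_atTop_mono (f := fun y => y - 2)
    · intro y
      have := (abs_le.1 (abs_prim_sub_id_le (γ := γ) hβ y t)).1
      linarith
    · exact tendsto_atTop_add_const_right _ _ tendsto_id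
  · apply tendsto_atBot_mono (f := fun y => y + 2)
    · intro y
      have := (abs_le.1 (abs_prim_sub_id_le (γ := γ) hβ y t)).2
      linarith
    · exact tendsto_atBot_add_const_right _ _ tendsto_id

lemma mp_surjective (hβ : 0 < β) : Function.Surjective (mp (m := m) β γ) := by
  intro y
  obtain ⟨s, hs⟩ := prim_surjective (γ := γ) hβ ‖tail y‖ (y 0)
  refine ⟨WithLp.toLp 2 (Fin.cons s (tail y) : Fin (m + 1) → ℝ), ?_⟩
  have h1 : tail (WithLp.toLp 2 (Fin.cons s (tail y) : Fin (m + 1) → ℝ)) = tail y := by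
    funext i
    simp [tail]
  ext i
  refine Fin.cases ?_ (fun i => ?_) i
  · rw [mp_zero_coord, h1]
    simpa using hs
  · rw [mp_succ_coord]
    simp [tail]

lemma abs_coord_le (x : Eu (m + 1)) (i : Fin (m + 1)) : |x i| ≤ ‖x‖ := PiLp.norm_apply_le x i

/-- The Lipschitz constant. -/
noncomputable def lipc (γ : ℝ) : ℝ≥0 := 3 + Real.toNNReal (∫ s, kern γ s)

lemma lipschitz_head (hβ : 0 < β) (hγ : γ < 1) :
    LipschitzWith (1 + Real.toNNReal (∫ s, kern γ s))
      fun x : Eu (m + 1) => prim β γ (x 0) ‖tail x‖ := by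
  have hk : 0 ≤ ∫ s, kern γ s := integral_nonneg fun s => kern_nonneg _ _
  apply LipschitzWith.of_dist_le_mul
  intro x y
  rw [Real.dist_eq, dist_eq_norm, NNReal.coe_add, NNReal.coe_one, Real.coe_toNNReal _ hk]
  have h1 := abs_prim_sub_le_left (β := β) (γ := γ) (y 0) (x 0) ‖tail x‖
  have h2 := abs_prim_sub_le_right hβ hγ (y 0) ‖tail x‖ ‖tail y‖
  have h3 : |x 0 - y 0| ≤ ‖x - y‖ := abs_coord_le (x - y) 0
  have h4 : |‖tail x‖ - ‖tail y‖| ≤ ‖x - y‖ :=
    (abs_norm_sub_norm_le _ _).trans (norm_tail_sub_le x y)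
  calc |prim β γ (x 0) ‖tail x‖ - prim β γ (y 0) ‖tail y‖|
      ≤ |prim β γ (x 0) ‖tail x‖ - prim β γ (y 0) ‖tail x‖| +
        |prim β γ (y 0) ‖tail x‖ - prim β γ (y 0) ‖tail y‖| := abs_sub_le _ _ _
    _ ≤ ‖x - y‖ + ‖x - y‖ * ∫ s, kern γ s := by
        gcongr
        · exact h1.trans h3
        · refine h2.trans ?_
          gcongr
    _ = (1 + ∫ s, kern γ s) * ‖x - y‖ := by ring

lemma mp_lipschitz (hβ : 0 < β) (hγ : γ < 1) : LipschitzWith (lipc γ) (mp (m := m) β γ) := by
  have h0 : LipschitzWith 1 fun x : Eu (m + 1) => x 0 :=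
    LipschitzWith.of_dist_le_mul fun x y => by
      rw [Real.dist_eq, dist_eq_norm]
      simpa using abs_coord_le (x - y) 0
  have h1 := (lipschitz_head (m := m) hβ hγ).sub h0
  have h2 : LipschitzWith (1 + Real.toNNReal (∫ s, kern γ s) + 1)
      fun x : Eu (m + 1) => (prim β γ (x 0) ‖tail x‖ - x 0) • (e0 : Eu (m + 1)) := by
    apply LipschitzWith.of_dist_le_mul
    intro x y
    rw [dist_eq_norm, ← sub_smul, norm_smul]
    have : ‖(e0 : Eu (m + 1))‖ = 1 := by simp [e0]
    rw [this, mul_one]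
    have := h1.dist_le_mul x y
    rwa [dist_eq_norm] at this
  have h3 := (LipschitzWith.id (α := Eu (m + 1))).add h2
  have h4 : 1 + (1 + Real.toNNReal (∫ s, kern γ s) + 1) = lipc γ := by
    unfold lipc
    ring
  rw [h4] at h3
  exact h3

lemma norm_mp_sub_le (hβ : 0 < β) (x : Eu (m + 1)) : ‖mp β γ x - x‖ ≤ 2 := by
  unfold mp
  rw [add_sub_cancel_left, norm_smul]
  have : ‖(e0 : Eu (m + 1))‖ = 1 := by simp [e0]
  rw [this, mul_one]
  exact abs_prim_sub_id_le hβ _ _

lemma mp_isClosedEmbedding (hβ : 0 < β) (hγ : γ < 1) :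
    IsClosedEmbedding (mp (m := m) β γ) := by
  have hc : Continuous (mp (m := m) β γ) := (mp_lipschitz hβ hγ).continuous
  have hp : IsProperMap (mp (m := m) β γ) := by
    rw [isProperMap_iff_tendsto_cocompact]
    refine ⟨hc, ?_⟩
    rw [← Metric.cobounded_eq_cocompact, ← tendsto_norm_atTop_iff_cobounded]
    apply tendsto_atTop_mono (f := fun x => ‖x‖ - 2)
    · intro x
      have h1 := norm_mp_sub_le (γ := γ) hβ x
      have h2 : ‖x‖ ≤ ‖mp β γ x‖ + ‖mp β γ x - x‖ := by
        have := norm_sub_le (mp β γ x) (mp β γ x - x)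
        simpa using this
      linarith
    · exact tendsto_atTop_add_const_right _ _ tendsto_norm_cobounded_atTop
  exact IsClosedEmbedding.of_continuous_injective_isClosedMap hc mp_injective hp.isClosedMap

end Pool.Agent.MPd8ee74
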