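import Mathlib
import Pool.Agent.MP_d8ee74_an.Map

/-!
# The derivative of the map
-/

open MeasureTheory Set Filter Topology
open scoped ContDiff NNReal

namespace Pool.Agent.MPd8ee74

variable {m : ℕ} {β γ : ℝ}

/-- The zeroth coordinate as a continuous linear functional. -/
noncomputable def proj0 : Eu (m + 1) →L[ℝ] ℝ := EuclideanSpace.proj 0

lemma proj0_apply (x : Eu (m + 1)) : proj0 x = x 0 := rfl

/-- The head function. -/
noncomputable def head (β γ : ℝ) (x : Eu (m + 1)) : ℝ := prim β γ (x 0) ‖tail x‖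

lemma mp_eq (x : Eu (m + 1)) : mp β γ x = x + (head β γ x - proj0 x) • e0 := rfl

lemma hasFDerivAt_mp {x : Eu (m + 1)} (hx : DifferentiableAt ℝ (head (m := m) β γ) x) :
    HasFDerivAt (mp β γ)
      (ContinuousLinearMap.id ℝ (Eu (m + 1)) +
        (fderiv ℝ (head β γ) x - proj0).smulRight e0) x := by
  have h1 : HasFDerivAt (fun y => head β γ y - proj0 y) (fderiv ℝ (head β γ) x - proj0) x :=
    hx.hasFDerivAt.sub proj0.hasFDerivAt
  exact (hasFDerivAt_id x).add (h1.smul_const e0)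

lemma fderiv_head_e0 {x : Eu (m + 1)} (hx : DifferentiableAt ℝ (head (m := m) β γ) x)
    (hx0 : x 0 ≠ 0) : fderiv ℝ (head β γ) x e0 = prof β γ (x 0) ‖tail x‖ := by
  have h1 : HasDerivAt (fun t : ℝ => x + t • (e0 : Eu (m + 1))) e0 0 := by
    have := ((hasDerivAt_id (0 : ℝ)).smul_const (e0 : Eu (m + 1))).const_add x
    simpa using this
  have hx' : HasFDerivAt (head β γ) (fderiv ℝ (head β γ) x)
      ((fun t : ℝ => x + t • (e0 : Eu (m + 1))) 0) := by
    simpa using hx.hasFDerivAt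
  have h2' := hx'.comp_hasDerivAt (0 : ℝ) h1
  have h2 : HasDerivAt (fun t : ℝ => head β γ (x + t • (e0 : Eu (m + 1))))
      (fderiv ℝ (head β γ) x e0) 0 := h2'
  have h3 : (fun t : ℝ => head β γ (x + t • (e0 : Eu (m + 1)))) =
      fun t : ℝ => prim β γ (x 0 + t) ‖tail x‖ := by
    funext t
    have h4 : tail (x + t • (e0 : Eu (m + 1))) = tail x := by
      funext i
      simp [tail, e0]
    have h5 : (x + t • (e0 : Eu (m + 1))) 0 = x 0 + t := by
      simp [e0]
    rw [head, h4, h5]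
  rw [h3] at h2
  have h6 : HasDerivAt (fun t : ℝ => prim β γ (x 0 + t) ‖tail x‖)
      (prof β γ (x 0) ‖tail x‖) 0 := by
    have := hasDerivAt_prim (β := β) (γ := γ) (y := x 0 + 0) (by simpa using hx0) ‖tail x‖
    have h7 := this.comp_const_add (x 0) 0
    simpa using h7
  exact h2.unique h6

lemma det_fderiv_mp {x : Eu (m + 1)} (hx : DifferentiableAt ℝ (head (m := m) β γ) x)
    (hx0 : x 0 ≠ 0) : (fderiv ℝ (mp β γ) x).det = prof β γ (x 0) ‖tail x‖ := by
  rw [(hasFDerivAt_mp hx).fderiv]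
  have h1 : ((ContinuousLinearMap.id ℝ (Eu (m + 1)) +
        (fderiv ℝ (head β γ) x - proj0).smulRight e0 : Eu (m + 1) →L[ℝ] Eu (m + 1)) :
        Eu (m + 1) →ₗ[ℝ] Eu (m + 1)) =
      LinearMap.transvection ((fderiv ℝ (head β γ) x - proj0 : Eu (m + 1) →L[ℝ] ℝ) :
        Module.Dual ℝ (Eu (m + 1))) e0 := by
    ext v
    simp [LinearMap.transvection]
  rw [ContinuousLinearMap.det, h1, LinearMap.transvection.det]
  have h2 : (e0 : Eu (m + 1)) 0 = 1 := by simp [e0]
  have h3 : ((fderiv ℝ (head β γ) x - proj0 : Eu (m + 1) →L[ℝ] ℝ) :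
        Module.Dual ℝ (Eu (m + 1))) e0 = prof β γ (x 0) ‖tail x‖ - 1 := by
    show (fderiv ℝ (head β γ) x - proj0 : Eu (m + 1) →L[ℝ] ℝ) e0 = _
    rw [sub_apply, fderiv_head_e0 hx hx0, proj0_apply, h2]
  rw [h3]
  ring

lemma ae_coord_ne_zero : ∀ᵐ x : Eu (m + 1), x 0 ≠ 0 := by
  have h1 : volume ((proj0 (m := m)).ker : Set (Eu (m + 1))) = 0 := by
    apply Measure.addHaar_submodule
    intro h
    have h2 : (e0 : Eu (m + 1)) ∈ (proj0 (m := m)).ker := by rw [h]; trivial
    have h3 : (e0 : Eu (m + 1)) 0 = 0 := h2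
    simp [e0] at h3
  rw [ae_iff]
  have h4 : {x : Eu (m + 1) | ¬ x 0 ≠ 0} = ((proj0 (m := m)).ker : Set (Eu (m + 1))) := by
    ext x
    simp [LinearMap.mem_ker, proj0_apply]
  rw [h4]
  exact h1

lemma ae_good (hβ : 0 < β) (hγ : γ < 1) :
    ∀ᵐ x : Eu (m + 1), (fderiv ℝ (mp β γ) x).det = prof β γ (x 0) ‖tail x‖ := by
  have h1 : ∀ᵐ x : Eu (m + 1), DifferentiableAt ℝ (head (m := m) β γ) x :=
    (lipschitz_head hβ hγ).ae_differentiableAt
  filter_upwards [h1, ae_coord_ne_zero] with x hx hx0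
  exact det_fderiv_mp hx hx0

lemma norm_fderiv_mp_le (hβ : 0 < β) (hγ : γ < 1) (x : Eu (m + 1)) :
    ‖fderiv ℝ (mp β γ) x‖ ≤ lipc γ :=
  norm_fderiv_le_of_lipschitz ℝ (mp_lipschitz hβ hγ)

/-- Integration by parts for Lipschitz maps. -/
lemma integral_eq_of_lipschitz {n : ℕ} {f : Eu n → Eu n} {c : ℝ≥0} (hf : LipschitzWith c f)
    {φ : Eu n → ℝ} (hφ : ContDiff ℝ ∞ φ) (hφc : HasCompactSupport φ) (v : Eu n) :
    ∫ x, (fderiv ℝ φ x v) • f x = - ∫ x, φ x • fderiv ℝ f x v := by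
  obtain ⟨d, hd⟩ := hφ.lipschitzWith_of_hasCompactSupport hφc (by simp)
  have hφc' : HasCompactSupport fun x => fderiv ℝ φ x v :=
    (hφc.fderiv_apply (𝕜 := ℝ) v)
  have hfd : Continuous fun x => fderiv ℝ φ x v :=
    (hφ.continuous_fderiv (by simp)).clm_apply continuous_const
  have hint1 : Integrable fun x => (fderiv ℝ φ x v) • f x :=
    (hfd.smul hf.continuous).integrable_of_hasCompactSupport (hφc'.smul_right)
  have hmeas : AEStronglyMeasurable (fun x => fderiv ℝ f x v) volume :=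
    (measurable_fderiv_apply_const ℝ f v).aestronglyMeasurable
  have hint2 : Integrable fun x => φ x • fderiv ℝ f x v := by
    have h1 : Integrable φ := hφ.continuous.integrable_of_hasCompactSupport hφc
    apply Integrable.mono' (h1.norm.mul_const (c * ‖v‖))
    · exact hφ.continuous.aestronglyMeasurable.smul hmeas
    · filter_upwards with x
      rw [norm_smul]
      gcongr
      refine ((fderiv ℝ f x).le_opNorm v).trans ?_
      gcongr
      exact norm_fderiv_le_of_lipschitz ℝ hf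
  ext i
  have e1 : (∫ x, (fderiv ℝ φ x v) • f x) i = ∫ x, (fderiv ℝ φ x v) * f x i := by
    have := (EuclideanSpace.proj (𝕜 := ℝ) i : Eu n →L[ℝ] ℝ).integral_comp_comm hint1
    simpa using this.symm
  have e2 : (- ∫ x, φ x • fderiv ℝ f x v) i = - ∫ x, φ x * fderiv ℝ f x v i := by
    have := (EuclideanSpace.proj (𝕜 := ℝ) i : Eu n →L[ℝ] ℝ).integral_comp_comm hint2
    rw [PiLp.neg_apply]
    congr 1
    simpa using this.symm
  rw [e1, e2]
  have hfi : LipschitzWith c fun x => f x i := by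
    apply LipschitzWith.of_dist_le_mul
    intro x y
    refine le_trans ?_ (hf.dist_le_mul x y)
    rw [Real.dist_eq, dist_eq_norm]
    exact PiLp.norm_apply_le (f x - f y) i
  have key := LipschitzWith.integral_lineDeriv_mul_eq (μ := (volume : Measure (Eu n))) hfi hd hφc v
  have h3 : ∀ x, lineDeriv ℝ φ x (-v) = - fderiv ℝ φ x v := by
    intro x
    rw [((hφ.differentiable (by simp)) x).lineDeriv_eq_fderiv, map_neg]
  have h4 : ∀ᵐ x, lineDeriv ℝ (fun x => f x i) x v = fderiv ℝ f x v i := by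
    filter_upwards [hf.ae_differentiableAt] with x hx
    have hx' : HasFDerivAt (fun y => f y i)
        ((EuclideanSpace.proj (𝕜 := ℝ) i : Eu n →L[ℝ] ℝ).comp (fderiv ℝ f x)) x :=
      (EuclideanSpace.proj (𝕜 := ℝ) i : Eu n →L[ℝ] ℝ).hasFDerivAt.comp x hx.hasFDerivAt
    rw [hx'.differentiableAt.lineDeriv_eq_fderiv, hx'.fderiv]
    rfl
  have h5 : ∫ x, lineDeriv ℝ (fun x => f x i) x v * φ x = ∫ x, φ x * fderiv ℝ f x v i := by
    apply integral_congr_ae
    filter_upwards [h4] with x hx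
    rw [hx, mul_comm]
  rw [h5] at key
  rw [key]
  simp_rw [h3]
  rw [← integral_neg]
  congr 1 with x
  ring

/-- The map has a weak derivative. -/
lemma hasWeakDeriv_mp (hβ : 0 < β) (hγ : γ < 1) :
    HasWeakDeriv univ (mp (m := m) β γ) (fderiv ℝ (mp β γ)) where
  locInt := (mp_lipschitz hβ hγ).continuous.locallyIntegrable.locallyIntegrableOn _
  locIntDeriv := by
    have h1 : LocallyIntegrable (fun _ : Eu (m + 1) => (lipc γ : ℝ)) :=
      continuous_const.locallyIntegrable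
    refine (h1.mono ?_ ?_).locallyIntegrableOn _
    · exact (measurable_fderiv ℝ (mp β γ)).aestronglyMeasurable
    · filter_upwards with x
      refine (norm_fderiv_mp_le hβ hγ x).trans ?_
      simp
  integral_eq := fun φ hφ hφc _ v => integral_eq_of_lipschitz (mp_lipschitz hβ hγ) hφ hφc v

end Pool.Agent.MPd8ee74
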