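import Mathlib
import Pool.Agent.MP_d8ee74_an.Deriv

/-!
# Integrability of the distortion
-/

open MeasureTheory Set Filter Topology
open scoped ContDiff NNReal

namespace Pool.Agent.MPd8ee74

variable {m : ℕ} {β γ c : ℝ}

lemma inv_prof_pow_le {s t : ℝ} (hγ : 0 < γ) (hc : 0 < c) (hcm : c ≤ m)
    (hβ : 0 < β) (hs : 0 < |s|) (hs1 : |s| < 1) (ht : 0 < t) :
    (prof β γ s t)⁻¹ ^ m ≤
      1 + Real.exp c * |s| ^ (γ * (m - c)) * t ^ (c * |s| ^ β - m) := by
  set δ : ℝ := c * |s| ^ β with hδ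
  have hsβ : 0 < |s| ^ β := Real.rpow_pos_of_pos hs β
  have hsβ1 : |s| ^ β ≤ 1 := Real.rpow_le_one hs.le hs1.le hβ.le
  have hδ0 : 0 < δ := mul_pos hc hsβ
  have hδc : δ ≤ c := by
    calc δ ≤ c * 1 := by rw [hδ]; gcongr
      _ = c := mul_one c
  have hpos : 0 ≤ Real.exp c * |s| ^ (γ * (m - c)) * t ^ (δ - m) := by positivity
  by_cases hM : 1 ≤ max (t * |s| ^ (-γ)) (Real.exp (1 - |s| ^ (-β)))
  · have : prof β γ s t = 1 := min_eq_left hM
    rw [this, inv_one, one_pow]
    linarith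
  · push Not at hM
    set a := t * |s| ^ (-γ) with ha
    set b := Real.exp (1 - |s| ^ (-β)) with hb
    have ha0 : 0 < a := by positivity
    have hb0 : 0 < b := Real.exp_pos _
    have hprof : prof β γ s t = max a b := min_eq_right hM.le
    rw [hprof]
    have hM0 : 0 < max a b := lt_max_of_lt_left ha0
    have h1 : a ^ ((m : ℝ) - δ) * b ^ δ ≤ (max a b) ^ m := by
      calc a ^ ((m : ℝ) - δ) * b ^ δ ≤ (max a b) ^ ((m : ℝ) - δ) * (max a b) ^ δ := by
            gcongr
            · linarith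
            · exact le_max_left _ _
            · exact le_max_right _ _
        _ = (max a b) ^ m := by
            rw [← Real.rpow_add hM0, sub_add_cancel, Real.rpow_natCast]
    have h2 : 0 < a ^ ((m : ℝ) - δ) * b ^ δ := by positivity
    have h3 : (max a b)⁻¹ ^ m ≤ (a ^ ((m : ℝ) - δ) * b ^ δ)⁻¹ := by
      rw [inv_pow]
      exact inv_anti₀ h2 h1
    have h4 : (a ^ ((m : ℝ) - δ) * b ^ δ)⁻¹ = t ^ (δ - m) * |s| ^ (γ * (m - δ)) *
        Real.exp (c - δ) := by
      rw [mul_inv, ← Real.rpow_neg ha0.le, ← Real.rpow_neg hb0.le, ha, hb,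
        Real.mul_rpow ht.le (by positivity), ← Real.rpow_mul hs.le, ← Real.exp_mul]
      have e1 : -((m : ℝ) - δ) = δ - m := by ring
      have e2 : -γ * (δ - m) = γ * (m - δ) := by ring
      have e3 : (1 - |s| ^ (-β)) * -δ = c - δ := by
        rw [hδ]
        have : |s| ^ (-β) * |s| ^ β = 1 := by
          rw [← Real.rpow_add hs]
          simp
        linear_combination c * this
      rw [e1, e2, e3]
    have h5 : |s| ^ (γ * (m - δ)) ≤ |s| ^ (γ * (m - c)) := by
      apply Real.rpow_le_rpow_of_exponent_ge hs hs1.le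
      gcongr
    have h6 : Real.exp (c - δ) ≤ Real.exp c := by
      rw [Real.exp_le_exp]; linarith
    calc (max a b)⁻¹ ^ m ≤ t ^ (δ - m) * |s| ^ (γ * (m - δ)) * Real.exp (c - δ) := h4 ▸ h3
      _ ≤ t ^ (δ - m) * |s| ^ (γ * (m - c)) * Real.exp c := by gcongr
      _ ≤ 1 + Real.exp c * |s| ^ (γ * (m - c)) * t ^ (δ - m) := by nlinarith

/-- The radial integrals. -/
lemma radial_integral (hm : 0 < m) {δ T : ℝ} (hδ : 0 < δ) (hT : 0 < T) :
    IntegrableOn (fun u : Fin m → ℝ => ‖u‖ ^ (δ - m)) (Metric.ball 0 T) ∧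
    ∫ u in Metric.ball (0 : Fin m → ℝ) T, ‖u‖ ^ (δ - m) =
      m * (volume.real (Metric.ball (0 : Fin m → ℝ) 1)) * (T ^ δ / δ) := by
  have hne : Nonempty (Fin m) := ⟨⟨0, hm⟩⟩
  have hcongr : ∀ y ∈ Ioo 0 T, y ^ (m - 1) • y ^ (δ - m) = y ^ (δ - 1) := by
    intro y hy
    rw [smul_eq_mul, ← Real.rpow_natCast, ← Real.rpow_add hy.1]
    congr 1
    rw [Nat.cast_sub hm]
    push_cast
    ring
  have hint : IntegrableOn (fun y : ℝ => y ^ (δ - 1)) (Ioo 0 T) :=
    (intervalIntegral.integrableOn_Ioo_rpow_iff hT).2 (by linarith)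
  constructor
  · rw [integrableOn_fun_norm_addHaar (volume : Measure (Fin m → ℝ))
      (f := fun y => y ^ (δ - m))]
    rw [Module.finrank_fin_fun]
    exact hint.congr_fun (fun y hy => (hcongr y hy).symm) measurableSet_Ioo
  · have h1 := integral_fun_norm_addHaar (volume : Measure (Fin m → ℝ))
      ((Iio T).indicator fun y => y ^ (δ - m))
    have h2 : ∀ u : Fin m → ℝ, (Iio T).indicator (fun y => y ^ (δ - m)) ‖u‖ =
        (Metric.ball (0 : Fin m → ℝ) T).indicator (fun u => ‖u‖ ^ (δ - m)) u := by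
      intro u
      simp [indicator]
    simp_rw [h2] at h1
    rw [integral_indicator measurableSet_ball] at h1
    rw [h1, Module.finrank_fin_fun]
    have h3 : ∫ y in Ioi (0 : ℝ), y ^ (m - 1) • (Iio T).indicator (fun y => y ^ (δ - m)) y =
        T ^ δ / δ := by
      have h4 : ∀ y ∈ Ioi (0 : ℝ), y ^ (m - 1) • (Iio T).indicator (fun y => y ^ (δ - m)) y =
          (Ioo 0 T).indicator (fun y => y ^ (δ - 1)) y := by
        intro y hy
        by_cases hyT : y < T
        · rw [indicator_of_mem (show y ∈ Iio T from hyT),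
            indicator_of_mem (show y ∈ Ioo 0 T from ⟨hy, hyT⟩), hcongr y ⟨hy, hyT⟩]
        · rw [indicator_of_notMem (show y ∉ Iio T from hyT),
            indicator_of_notMem (show y ∉ Ioo 0 T from fun h => hyT h.2), smul_zero]
      rw [setIntegral_congr_fun measurableSet_Ioi h4, setIntegral_indicator measurableSet_Ioo]
      have h5 : Ioi (0 : ℝ) ∩ Ioo 0 T = Ioo 0 T := by
        ext y
        simp only [mem_inter_iff, mem_Ioi, mem_Ioo]
        tauto
      rw [h5, ← integral_Ioc_eq_integral_Ioo, ← intervalIntegral.integral_of_le hT.le,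
        integral_rpow (Or.inl (by linarith))]
      rw [sub_add_cancel, Real.zero_rpow hδ.ne', sub_zero]
    rw [h3]
    simp only [nsmul_eq_mul, smul_eq_mul]
    ring

/-- The function on the product. -/
noncomputable def hfun (β γ : ℝ) (m : ℕ) (p : ℝ × (Fin m → ℝ)) : ℝ :=
  (prof β γ p.1 ‖p.2‖)⁻¹ ^ m

lemma measurable_hfun : Measurable (hfun β γ m) := by
  unfold hfun
  have h1 : Measurable fun p : ℝ × (Fin m → ℝ) => prof β γ p.1 ‖p.2‖ :=
    (measurable_prof_uncurry β γ).comp (by fun_prop : Measurable fun p : ℝ × (Fin m → ℝ) =>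
      ((p.1, ‖p.2‖) : ℝ × ℝ))
  exact h1.inv.pow_const m

lemma hfun_nonneg (p : ℝ × (Fin m → ℝ)) : 0 ≤ hfun β γ m p := by
  unfold hfun
  have := prof_pos β γ p.1 ‖p.2‖
  positivity

lemma hfun_eq_one (hβ : 0 < β) {p : ℝ × (Fin m → ℝ)} (hp : 1 ≤ |p.1|) : hfun β γ m p = 1 := by
  unfold hfun
  rw [prof_eq_one hβ hp]
  simp

/-- Fibre estimate. -/
lemma fibre_estimate (hm : 0 < m) (hγ : 0 < γ) (hc : 0 < c) (hcm : c ≤ m)
    (hβ : 0 < β) {s T : ℝ} (hs : 0 < |s|) (hs1 : |s| < 1) (hT : 1 ≤ T) :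
    IntegrableOn (fun u : Fin m → ℝ => hfun β γ m (s, u)) (Metric.ball 0 T) ∧
    ∫ u in Metric.ball (0 : Fin m → ℝ) T, hfun β γ m (s, u) ≤
      volume.real (Metric.ball (0 : Fin m → ℝ) T) +
      (Real.exp c * (m * volume.real (Metric.ball (0 : Fin m → ℝ) 1)) * (T ^ c / c)) *
        |s| ^ (γ * (m - c) - β) := by
  have hT0 : 0 < T := by linarith
  have hsβ : 0 < |s| ^ β := Real.rpow_pos_of_pos hs β
  have hsβ1 : |s| ^ β ≤ 1 := Real.rpow_le_one hs.le hs1.le hβ.le
  have hδ0 : 0 < c * |s| ^ β := mul_pos hc hsβ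
  have hδc : c * |s| ^ β ≤ c := by
    calc c * |s| ^ β ≤ c * 1 := by gcongr
      _ = c := mul_one c
  obtain ⟨h1, h2⟩ := radial_integral hm hδ0 hT0
  have hone : IntegrableOn (fun _ : Fin m → ℝ => (1 : ℝ)) (Metric.ball 0 T) :=
    integrableOn_const (by exact measure_ball_lt_top.ne)
  have hbound : IntegrableOn (fun u : Fin m → ℝ => 1 + Real.exp c * |s| ^ (γ * (m - c)) *
      ‖u‖ ^ (c * |s| ^ β - m)) (Metric.ball 0 T) := hone.add (h1.const_mul _)
  have hne : Nonempty (Fin m) := ⟨⟨0, hm⟩⟩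
  have hae : ∀ᵐ u : Fin m → ℝ, hfun β γ m (s, u) ≤ 1 + Real.exp c * |s| ^ (γ * (m - c)) *
      ‖u‖ ^ (c * |s| ^ β - m) := by
    have h0 : ∀ᵐ u : Fin m → ℝ, u ≠ 0 := by
      rw [ae_iff]
      simp
    filter_upwards [h0] with u hu
    exact inv_prof_pow_le hγ hc hcm hβ hs hs1 (norm_pos_iff.2 hu)
  have hmeas : Measurable fun u : Fin m → ℝ => hfun β γ m (s, u) :=
    measurable_hfun.comp (by fun_prop)
  have hint : IntegrableOn (fun u : Fin m → ℝ => hfun β γ m (s, u)) (Metric.ball 0 T) := by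
    apply Integrable.mono' hbound hmeas.aestronglyMeasurable
    filter_upwards [ae_restrict_of_ae hae] with u hu
    rw [Real.norm_of_nonneg (hfun_nonneg _)]
    exact hu
  refine ⟨hint, ?_⟩
  calc ∫ u in Metric.ball (0 : Fin m → ℝ) T, hfun β γ m (s, u)
      ≤ ∫ u in Metric.ball (0 : Fin m → ℝ) T, (1 + Real.exp c * |s| ^ (γ * (m - c)) *
          ‖u‖ ^ (c * |s| ^ β - m)) := by
        apply setIntegral_mono_ae hint hbound hae
    _ = volume.real (Metric.ball (0 : Fin m → ℝ) T) + Real.exp c * |s| ^ (γ * (m - c)) *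
          (m * (volume.real (Metric.ball (0 : Fin m → ℝ) 1)) *
            (T ^ (c * |s| ^ β) / (c * |s| ^ β))) := by
        rw [integral_add hone (h1.const_mul _), integral_const_mul, h2]
        simp
    _ ≤ volume.real (Metric.ball (0 : Fin m → ℝ) T) + Real.exp c * |s| ^ (γ * (m - c)) *
          (m * (volume.real (Metric.ball (0 : Fin m → ℝ) 1)) *
            (T ^ c / (c * |s| ^ β))) := by
        gcongr
    _ = _ := by
        rw [sub_eq_add_neg (γ * (m - c)) β, Real.rpow_add hs, Real.rpow_neg hs.le]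
        field_simp

/-- Integrability on products of bounded sets. -/
lemma integrableOn_hfun (hm : 0 < m) (hγ : 0 < γ) (hc : 0 < c) (hcm : c ≤ m)
    (hβ : 0 < β) (hexp : -1 < γ * (m - c) - β) {T : ℝ} (hT : 1 ≤ T) :
    IntegrableOn (hfun β γ m) (Metric.ball (0 : ℝ) T ×ˢ Metric.ball (0 : Fin m → ℝ) T) := by
  have hm' : AEStronglyMeasurable (hfun β γ m)
      ((volume.restrict (Metric.ball (0 : ℝ) T)).prod
        (volume.restrict (Metric.ball (0 : Fin m → ℝ) T))) :=
    measurable_hfun.aestronglyMeasurable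
  rw [IntegrableOn, Measure.volume_eq_prod, ← Measure.prod_restrict, integrable_prod_iff hm']
  have hone : IntegrableOn (fun _ : Fin m → ℝ => (1 : ℝ)) (Metric.ball 0 T) :=
    integrableOn_const (by exact measure_ball_lt_top.ne)
  have hs0 : ∀ᵐ s : ℝ ∂(volume.restrict (Metric.ball (0 : ℝ) T)), s ≠ 0 := by
    apply ae_restrict_of_ae
    rw [ae_iff]
    simp
  constructor
  · filter_upwards [hs0] with s hs
    by_cases hs1 : |s| < 1
    · exact (fibre_estimate hm hγ hc hcm hβ (abs_pos.2 hs) hs1 hT).1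
    · have : (fun u : Fin m → ℝ => hfun β γ m (s, u)) = fun _ => 1 := by
        funext u
        exact hfun_eq_one hβ (not_lt.1 hs1)
      rw [this]
      exact hone
  · set A := volume.real (Metric.ball (0 : Fin m → ℝ) T) with hA
    set B := Real.exp c * (m * volume.real (Metric.ball (0 : Fin m → ℝ) 1)) * (T ^ c / c) with hB
    have hB0 : 0 ≤ B := by positivity
    have hdom : IntegrableOn (fun s : ℝ => A + B * ‖s‖ ^ (γ * (m - c) - β))
        (Metric.ball (0 : ℝ) T) := by
      have h1 : IntegrableOn (fun s : ℝ => ‖s‖ ^ (γ * (m - c) - β)) (Metric.ball (0 : ℝ) T) := by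
        rw [integrableOn_fun_norm_addHaar (E := ℝ) (F := ℝ) (volume : Measure ℝ)
          (f := fun y => y ^ (γ * (m - c) - β)) (r := T)]
        simp only [Module.finrank_self, tsub_self, pow_zero, one_smul]
        exact (intervalIntegral.integrableOn_Ioo_rpow_iff (by linarith)).2 hexp
      have h2 : IntegrableOn (fun _ : ℝ => A) (Metric.ball (0 : ℝ) T) :=
        integrableOn_const (by exact measure_ball_lt_top.ne)
      exact h2.add (h1.const_mul B)
    apply Integrable.mono' hdom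
    · exact hm'.norm.integral_prod_right'
    · filter_upwards [hs0] with s hs
      have hnn : ∀ u : Fin m → ℝ, ‖hfun β γ m (s, u)‖ = hfun β γ m (s, u) := fun u =>
        Real.norm_of_nonneg (hfun_nonneg _)
      simp_rw [hnn]
      rw [Real.norm_of_nonneg (integral_nonneg fun u => hfun_nonneg _)]
      by_cases hs1 : |s| < 1
      · exact (fibre_estimate hm hγ hc hcm hβ (abs_pos.2 hs) hs1 hT).2
      · have : (fun u : Fin m → ℝ => hfun β γ m (s, u)) = fun _ => 1 := by
          funext u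
          exact hfun_eq_one hβ (not_lt.1 hs1)
        rw [this]
        have h3 : 0 ≤ B * ‖s‖ ^ (γ * (m - c) - β) := by positivity
        simp only [integral_const, measureReal_restrict_apply MeasurableSet.univ, univ_inter,
          smul_eq_mul, mul_one]
        linarith

/-- The measure preserving splitting of coordinates. -/
lemma split_eq : (fun x : Eu (m + 1) => ((x 0, tail x) : ℝ × (Fin m → ℝ))) =
    ⇑(MeasurableEquiv.piFinSuccAbove (fun _ : Fin (m + 1) => ℝ) 0) ∘
      (WithLp.ofLp : Eu (m + 1) → (Fin (m + 1) → ℝ)) := by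
  funext x
  apply Prod.ext
  · rfl
  · funext i
    simp [tail, MeasurableEquiv.piFinSuccAbove]
    rfl

lemma measurePreserving_split :
    MeasurePreserving (fun x : Eu (m + 1) => ((x 0, tail x) : ℝ × (Fin m → ℝ))) := by
  have h1 := PiLp.volume_preserving_ofLp (Fin (m + 1))
  have h2 := volume_preserving_piFinSuccAbove (fun _ : Fin (m + 1) => ℝ) 0
  have h3 := h2.comp h1
  rw [split_eq]
  exact h3

lemma measurableEmbedding_split :
    MeasurableEmbedding (fun x : Eu (m + 1) => ((x 0, tail x) : ℝ × (Fin m → ℝ))) := by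
  have h1 := (MeasurableEquiv.toLp 2 (Fin (m + 1) → ℝ)).symm.measurableEmbedding
  have h2 := (MeasurableEquiv.piFinSuccAbove (fun _ : Fin (m + 1) => ℝ) 0).measurableEmbedding
  have h3 := h2.comp h1
  rw [split_eq]
  exact h3

/-- Local integrability of the inverse power of the profile. -/
lemma locallyIntegrable_inv_prof (hm : 0 < m) (hγ : 0 < γ) (hc : 0 < c) (hcm : c ≤ m)
    (hβ : 0 < β) (hexp : -1 < γ * (m - c) - β) :
    LocallyIntegrable (fun x : Eu (m + 1) => (prof β γ (x 0) ‖tail x‖)⁻¹ ^ m) := by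
  intro x₀
  let T : ℝ := ‖x₀‖ + 1
  have hT : 1 ≤ T := by
    have := norm_nonneg x₀
    linarith
  refine ⟨Metric.ball 0 T, Metric.isOpen_ball.mem_nhds (by simp [T]), ?_⟩
  have h1 : IntegrableOn (fun x : Eu (m + 1) => (prof β γ (x 0) ‖tail x‖)⁻¹ ^ m)
      ((fun x : Eu (m + 1) => ((x 0, tail x) : ℝ × (Fin m → ℝ))) ⁻¹'
        (Metric.ball (0 : ℝ) T ×ˢ Metric.ball (0 : Fin m → ℝ) T)) := by
    have := (measurePreserving_split (m := m)).integrableOn_comp_preimage
      measurableEmbedding_split (f := hfun β γ m)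
      (s := Metric.ball (0 : ℝ) T ×ˢ Metric.ball (0 : Fin m → ℝ) T)
    exact this.2 (integrableOn_hfun hm hγ hc hcm hβ hexp hT)
  refine h1.mono_set ?_
  intro x hx
  rw [mem_ball_zero_iff] at hx
  simp only [mem_preimage, mem_prod, mem_ball_zero_iff]
  constructor
  · exact (abs_coord_le x 0).trans_lt hx
  · refine lt_of_le_of_lt ?_ hx
    have := norm_tail_sub_le x 0
    have h0 : tail (0 : Eu (m + 1)) = 0 := by
      funext i
      simp [tail]
    rwa [h0, sub_zero, sub_zero] at this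

end Pool.Agent.MPd8ee74
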