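import Mathlib
import Pool.Agent.MP_d8ee74_an.Integ

/-!
# The exponent `1/n` cannot be improved
-/

open MeasureTheory Set Filter Topology
open scoped ContDiff NNReal

namespace Pool.Agent.MPd8ee74

variable {m : ℕ} {β γ c : ℝ}

lemma measurable_det_fderiv : Measurable fun x => (fderiv ℝ (mp (m := m) β γ) x).det :=
  ContinuousLinearMap.continuous_det.measurable.comp (measurable_fderiv ℝ (mp β γ))

lemma measurable_prof_comp :
    Measurable fun x : Eu (m + 1) => prof β γ (x 0) ‖tail x‖ := by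
  have h1 : Measurable (fun x : Eu (m + 1) => ((x 0, ‖tail x‖) : ℝ × ℝ)) := by
    have h2 : Continuous fun x : Eu (m + 1) => tail x :=
      continuous_pi fun i => by unfold tail; fun_prop
    have h3 : Continuous (fun x : Eu (m + 1) => ((x 0, ‖tail x‖) : ℝ × ℝ)) := by fun_prop
    exact h3.measurable
  exact (measurable_prof_uncurry β γ).comp h1

lemma finiteDistortion_mp (hβ : 0 < β) (hγ : γ < 1) :
    FiniteDistortion univ (mp (m := m) β γ) (fderiv ℝ (mp β γ)) where
  weakDeriv := hasWeakDeriv_mp hβ hγ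
  locIntDet := by
    have h1 : LocallyIntegrable (fun _ : Eu (m + 1) => (1 : ℝ)) :=
      continuous_const.locallyIntegrable
    refine (h1.mono measurable_det_fderiv.aestronglyMeasurable ?_).locallyIntegrableOn _
    filter_upwards [ae_good (m := m) hβ hγ] with x hx
    rw [hx, norm_one]
    exact norm_prof_le _ _ _ _
  exists_bound := by
    refine ⟨fun x => max 1 ((lipc γ : ℝ) ^ (m + 1) * (prof β γ (x 0) ‖tail x‖)⁻¹), ?_, ?_, ?_⟩
    · exact measurable_const.max (measurable_const.mul measurable_prof_comp.inv)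
    · intro x
      exact le_max_left _ _
    · apply ae_restrict_of_ae
      filter_upwards [ae_good (m := m) hβ hγ] with x hx
      rw [hx]
      have hp := prof_pos β γ (x 0) ‖tail x‖
      calc ‖fderiv ℝ (mp β γ) x‖ ^ (m + 1) ≤ (lipc γ : ℝ) ^ (m + 1) := by
            gcongr
            exact norm_fderiv_mp_le hβ hγ x
        _ = ((lipc γ : ℝ) ^ (m + 1) * (prof β γ (x 0) ‖tail x‖)⁻¹) *
              prof β γ (x 0) ‖tail x‖ := by field_simp
        _ ≤ _ := by
            gcongr
            exact le_max_right _ _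

lemma measurable_distortion {n : ℕ} : Measurable (distortion (n := n)) := by
  unfold distortion
  have hdet : Measurable fun D : Eu n →L[ℝ] Eu n => D.det :=
    ContinuousLinearMap.continuous_det.measurable
  apply Measurable.ite
  · exact measurableSet_lt measurable_const hdet
  · exact (measurable_norm.pow_const n).div hdet
  · exact measurable_const

lemma inClass_mp (hm : 0 < m) (hβ : 0 < β) (hγ0 : 0 < γ) (hγ : γ < 1) (hc : 0 < c)
    (hcm : c ≤ m) (hexp : -1 < γ * (m - c) - β) : InClass univ (mp (m := m) β γ) := by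
  refine ⟨isOpen_univ, ?_, fderiv ℝ (mp β γ), finiteDistortion_mp hβ hγ, ?_⟩
  · have h1 := (mp_isClosedEmbedding (m := m) hβ hγ).isEmbedding
    exact h1.comp IsEmbedding.subtypeVal
  · have h1 := (locallyIntegrable_inv_prof hm hγ0 hc hcm hβ hexp).smul
      (((lipc γ : ℝ) ^ (m + 1)) ^ m)
    refine (h1.mono ?_ ?_).locallyIntegrableOn _
    · exact ((measurable_distortion.comp (measurable_fderiv ℝ (mp β γ))).pow_const
        _).aestronglyMeasurable
    · filter_upwards [ae_good (m := m) hβ hγ] with x hx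
      have hp := prof_pos β γ (x 0) ‖tail x‖
      have h2 : distortion (fderiv ℝ (mp β γ) x) =
          ‖fderiv ℝ (mp β γ) x‖ ^ (m + 1) / prof β γ (x 0) ‖tail x‖ := by
        unfold distortion
        rw [hx, if_pos hp]
      rw [h2, add_tsub_cancel_right, Real.norm_of_nonneg (by positivity),
        Real.norm_of_nonneg (by
          simp only [Pi.smul_apply, smul_eq_mul]
          positivity)]
      simp only [Pi.smul_apply, smul_eq_mul]
      rw [div_eq_mul_inv, mul_pow]
      gcongr
      exact norm_fderiv_mp_le hβ hγ x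

lemma mp_smul_e0 (y : ℝ) : mp (m := m) β γ (y • e0) = prim β γ y 0 • e0 := by
  have h1 : tail (y • (e0 : Eu (m + 1))) = 0 := by
    funext i
    simp [tail, e0]
  have h2 : (y • (e0 : Eu (m + 1))) 0 = y := by simp [e0]
  unfold mp
  rw [h1, h2, norm_zero, ← add_smul]
  congr 1
  ring

theorem le_of_admissible {n : ℕ} (hn : 2 ≤ n) {α : ℝ} (hα : 0 < α) (h : Admissible n α) :
    α ≤ 1 / n := by
  by_contra hcon
  push Not at hcon
  obtain ⟨m, rfl⟩ : ∃ m, n = m + 1 := ⟨n - 1, by omega⟩
  have hm : 0 < m := by omega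
  have hm1 : (1 : ℝ) ≤ m := by exact_mod_cast hm
  -- choice of the parameters
  have h1 : 1 / α < m + 1 := by
    rw [div_lt_iff₀ hα]
    rw [div_lt_iff₀ (by positivity)] at hcon
    push_cast at hcon
    linarith
  obtain ⟨β, hβ1, hβ2⟩ := exists_between h1
  have hβ : 0 < β := lt_trans (by positivity) hβ1
  have hαβ : 1 < α * β := by
    rw [div_lt_iff₀ hα] at hβ1
    linarith
  have h2 : max 0 ((β - 1) / m) < 1 := by
    apply max_lt one_pos
    rw [div_lt_one (by positivity)]
    linarith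
  obtain ⟨γ, hγ1, hγ⟩ := exists_between h2
  have hγ0 : 0 < γ := (le_max_left _ _).trans_lt hγ1
  have hγm : β - 1 < γ * m := by
    have := (le_max_right _ _).trans_lt hγ1
    rwa [div_lt_iff₀ (by positivity)] at this
  set c : ℝ := min 1 ((γ * m - (β - 1)) / 2) with hc
  have hc0 : 0 < c := lt_min one_pos (by linarith)
  have hcm : c ≤ m := (min_le_left _ _).trans hm1
  have hexp : -1 < γ * (m - c) - β := by
    have h3 : c ≤ (γ * m - (β - 1)) / 2 := min_le_right _ _
    have h4 : γ * c ≤ c := by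
      calc γ * c ≤ 1 * c := by gcongr
        _ = c := one_mul c
    have h5 : γ * (m - c) = γ * m - γ * c := by ring
    rw [h5]
    linarith
  have hcl := inClass_mp hm hβ hγ0 hγ hc0 hcm hexp
  obtain ⟨C, hC⟩ := h univ (mp β γ) hcl 0 1 one_pos (by
    intro y _
    obtain ⟨x, hx⟩ := mp_surjective (m := m) (γ := γ) hβ y
    exact ⟨x, trivial, hx⟩)
  have hinj : InjOn (mp (m := m) β γ) univ := mp_injective.injOn
  have hinv : ∀ x, Function.invFunOn (mp (m := m) β γ) univ (mp β γ x) = x := fun x =>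
    hinj.leftInvOn_invFunOn (mem_univ x)
  have hzero : mp (m := m) β γ 0 = 0 := by
    have := mp_smul_e0 (m := m) (β := β) (γ := γ) 0
    rwa [prim_zero, zero_smul] at this
  have hinv0 : Function.invFunOn (mp (m := m) β γ) univ 0 = 0 := by
    have := hinv 0
    rwa [hzero] at this
  have hne0 : ‖(e0 : Eu (m + 1))‖ = 1 := by simp [e0]
  -- the estimate along the axis
  have key : ∀ y : ℝ, 0 < y → y < 1 → 2 ≤ y ^ (-β) → y ≤ |C| * 2 ^ α * y ^ (α * β) := by
    intro y hy hy1 hy2
    have hq0 : 0 < prim β γ y 0 := by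
      have := prim_strictMono (β := β) (γ := γ) 0 hy
      simpa [prim_zero] using this
    have hq1 : prim β γ y 0 ≤ y * Real.exp (1 - y ^ (-β)) := prim_le hy hβ
    have hlog : y ^ (-β) / 2 ≤ Real.log (1 / prim β γ y 0) := by
      rw [one_div, Real.log_inv]
      have h6 : Real.log (prim β γ y 0) ≤ Real.log (y * Real.exp (1 - y ^ (-β))) :=
        Real.log_le_log hq0 hq1
      rw [Real.log_mul hy.ne' (Real.exp_pos _).ne', Real.log_exp] at h6
      have h7 : Real.log y ≤ 0 := Real.log_nonpos hy.le hy1.le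
      linarith
    have hq2 : prim β γ y 0 < 1 := by
      refine hq1.trans_lt ?_
      have h8 : Real.exp (1 - y ^ (-β)) ≤ 1 := by
        rw [Real.exp_le_one_iff]
        linarith
      calc y * Real.exp (1 - y ^ (-β)) ≤ y * 1 := by gcongr
        _ < 1 := by linarith
    have h9 := hC (mp β γ (y • e0)) (by
      rw [mem_ball_zero_iff, mp_smul_e0, norm_smul, hne0, mul_one, Real.norm_of_nonneg hq0.le]
      exact hq2) (by
      rw [mp_smul_e0]
      intro h0
      have := congrArg norm h0
      rw [norm_smul, hne0, mul_one, norm_zero, norm_eq_zero] at this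
      exact hq0.ne' this)
    rw [hinv, hinv0, sub_zero, sub_zero, norm_smul, hne0, mul_one, Real.norm_of_nonneg hy.le,
      mp_smul_e0, norm_smul, hne0, mul_one, Real.norm_of_nonneg hq0.le] at h9
    have h10 : 0 < y ^ (-β) / 2 := by linarith
    have h11 : (Real.log (1 / prim β γ y 0)) ^ (-α) ≤ (y ^ (-β) / 2) ^ (-α) :=
      Real.rpow_le_rpow_of_nonpos h10 hlog (by linarith)
    have h12 : (y ^ (-β) / 2) ^ (-α) = 2 ^ α * y ^ (α * β) := by
      rw [Real.div_rpow (by positivity) (by norm_num), ← Real.rpow_mul hy.le,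
        Real.rpow_neg (by norm_num : (0 : ℝ) ≤ 2), div_inv_eq_mul, mul_comm]
      congr 2
      ring
    have h13 : 0 ≤ (Real.log (1 / prim β γ y 0)) ^ (-α) :=
      Real.rpow_nonneg (h10.le.trans hlog) _
    calc y ≤ C * (Real.log (1 / prim β γ y 0)) ^ (-α) := h9
      _ ≤ |C| * (Real.log (1 / prim β γ y 0)) ^ (-α) := by
          gcongr
          exact le_abs_self C
      _ ≤ |C| * (y ^ (-β) / 2) ^ (-α) := by gcongr
      _ = |C| * 2 ^ α * y ^ (α * β) := by rw [h12]; ring
  -- contradiction as `y → 0`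
  have hlim1 : Tendsto (fun y : ℝ => |C| * 2 ^ α * y ^ (α * β - 1)) (𝓝[>] 0) (𝓝 0) := by
    have h14 : ContinuousAt (fun y : ℝ => y ^ (α * β - 1)) 0 :=
      Real.continuousAt_rpow_const _ _ (Or.inr (by linarith))
    have h15 : Tendsto (fun y : ℝ => y ^ (α * β - 1)) (𝓝[>] 0) (𝓝 0) := by
      have := h14.tendsto
      rw [Real.zero_rpow (by linarith : α * β - 1 ≠ 0)] at this
      exact this.mono_left nhdsWithin_le_nhds
    simpa using h15.const_mul (|C| * 2 ^ α)
  have hlim2 : Tendsto (fun y : ℝ => y ^ (-β)) (𝓝[>] 0) atTop :=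
    tendsto_rpow_neg_nhdsGT_zero (by linarith)
  have hev : ∀ᶠ y : ℝ in 𝓝[>] 0, 0 < y ∧ y < 1 ∧ 2 ≤ y ^ (-β) ∧
      |C| * 2 ^ α * y ^ (α * β - 1) < 1 := by
    filter_upwards [self_mem_nhdsWithin, nhdsWithin_le_nhds (Iio_mem_nhds one_pos),
      hlim2.eventually_ge_atTop 2, hlim1.eventually_lt_const one_pos] with y hy1 hy2 hy3 hy4
    exact ⟨hy1, hy2, hy3, hy4⟩
  obtain ⟨y, hy0, hy1, hy2, hy3⟩ := hev.exists
  have h16 := key y hy0 hy1 hy2
  have h17 : |C| * 2 ^ α * y ^ (α * β) = (|C| * 2 ^ α * y ^ (α * β - 1)) * y := by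
    rw [mul_assoc, mul_assoc, mul_assoc, ← Real.rpow_add_one hy0.ne', sub_add_cancel]
  rw [h17] at h16
  have h18 : (|C| * 2 ^ α * y ^ (α * β - 1)) * y < 1 * y := by gcongr
  linarith

end Pool.Agent.MPd8ee74
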